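import Mathlib
import Pool.Agent.Lib.helper12.RChain
import Pool.Agent.H.MP_0b3b8e_pr.A

namespace Pool.Agent.Results.MP_0b3b8e_pr.NoMonopoly

open MeasureTheory Filter unitInterval Pool.Agent.Lib.helper12 Pool.Agent.H.MP_0b3b8e_pr

noncomputable def step {d : ℕ} (W : ℕ → ℝ) (s : (Fin d → ℕ) × (Fin d → ℕ)) (u : Fin d → I) :
    (Fin d → ℕ) × (Fin d → ℕ) :=
  (fun i => s.1 i +
      if (u i : ℝ) < W (∑ j, s.1 j) / (W (∑ j, s.1 j) + W (∑ j, s.2 j)) then 1 else 0,
    fun i => s.2 i +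
      if (u i : ℝ) < W (∑ j, s.1 j) / (W (∑ j, s.1 j) + W (∑ j, s.2 j)) then 0 else 1)

noncomputable def urn {d : ℕ} (W : ℕ → ℝ) (s₀ : (Fin d → ℕ) × (Fin d → ℕ))
    (ω : ℕ → Fin d → I) : ℕ → (Fin d → ℕ) × (Fin d → ℕ)
  | 0 => s₀
  | n + 1 => step W (urn W s₀ ω n) (ω n)

theorem result : ∃ W : ℕ → ℝ, (∀ n, 0 < W n) ∧ (Summable fun n => 1 / W n) ∧
    ∀ s₀ : (Fin 2 → ℕ) × (Fin 2 → ℕ), ∑ i, s₀.1 i = 16 → ∑ i, s₀.2 i = 16 →
      Measure.infinitePi (fun _ : ℕ => (volume : Measure (Fin 2 → I)))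
        {ω | (∀ᶠ n in atTop, ∑ i, (urn W s₀ ω (n + 1)).2 i = ∑ i, (urn W s₀ ω n).2 i) ∨
          (∀ᶠ n in atTop, ∑ i, (urn W s₀ ω (n + 1)).1 i = ∑ i, (urn W s₀ ω n).1 i)} < 1 := by
  refine ⟨W, W_pos, W_sum, fun s₀ h1 h2 => ?_⟩
  have mF : ∀ s : (Fin 2 → ℕ) × (Fin 2 → ℕ), Measurable (step W s) := by
    intro s
    have m : ∀ (i : Fin 2) (p : ℝ) (a b : ℕ),
        Measurable fun u : Fin 2 → I => if (u i : ℝ) < p then a else b := fun i p a b =>
      Measurable.ite (measurableSet_lt (by fun_prop) measurable_const) measurable_const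
        measurable_const
    exact (measurable_pi_lambda _ fun i => (m i _ 1 0).const_add _).prodMk
      (measurable_pi_lambda _ fun i => (m i _ 0 1).const_add _)
  have key := RChain.eventually_le (volume : Measure (Fin 2 → I)) (fun _ => step W)
    (fun _ => mF) (fun n ω => urn W s₀ ω n) s₀ (fun _ => rfl) (fun _ _ => rfl)
    (fun _ s => ENNReal.ofReal (h (∑ i, s.1 i) (∑ i, s.2 i))) ?_
  · rw [h1, h2] at key
    refine lt_of_le_of_lt (le_trans (measure_mono fun ω hω => ?_) key)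
      (ENNReal.ofReal_lt_one.2 start)
    have tot : ∀ n, ∑ i, (urn W s₀ ω n).1 i + ∑ i, (urn W s₀ ω n).2 i = 32 + 2 * n := by
      intro n
      induction n with
      | zero => simp only [urn, h1, h2]
      | succ n ih =>
        simp only [urn, step, Fin.sum_univ_two] at ih ⊢
        split_ifs <;> omega
    have cst : ∀ f : ℕ → ℕ, (∀ᶠ n in atTop, f (n + 1) = f n) →
        ∃ c, ∀ᶠ n in atTop, f n = c ∧ 2 * c ≤ n := by
      intro f hf
      obtain ⟨N, hN⟩ := eventually_atTop.1 hf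
      refine ⟨f N, (eventually_atTop.2 ⟨N, fun n hn => ?_⟩).and (eventually_ge_atTop _)⟩
      induction n, hn using Nat.le_induction with
      | base => rfl
      | succ n hn ih => rw [hN n hn, ih]
    rcases hω with hω | hω
    · obtain ⟨c, hc⟩ := cst (fun n => ∑ i, (urn W s₀ ω n).2 i) hω
      filter_upwards [hc] with n hn
      exact ENNReal.one_le_ofReal.2 (h_far (Or.inl (by have := tot n; omega)))
    · obtain ⟨c, hc⟩ := cst (fun n => ∑ i, (urn W s₀ ω n).1 i) hω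
      filter_upwards [hc] with n hn
      exact ENNReal.one_le_ofReal.2 (h_far (Or.inr (by have := tot n; omega)))
  · intro _ s
    have := RChain.coin2 (P (∑ i, s.1 i) (∑ i, s.2 i)) (P0 _ _) (P1 _ _)
      (fun a b => h (∑ i, s.1 i + (a.toNat + b.toNat))
        (∑ i, s.2 i + ((!a).toNat + (!b).toNat))) fun _ _ => h_nn _ _
    refine le_trans (le_of_eq (Eq.trans (lintegral_congr fun u => ?_) this))
      (ENNReal.ofReal_le_ofReal (super _ _))
    simp only [step, P, Fin.sum_univ_two]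
    congr 2 <;> split_ifs with a b <;> simp [*] <;> omega

end Pool.Agent.Results.MP_0b3b8e_pr.NoMonopoly
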